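import Pool.Agent.Helper69.HA.TopDefs

/-!
# Project HA, module HA-T3: the space is not sequential
-/

set_option autoImplicit false
set_option linter.unusedSectionVars false

namespace Pool.Agent.Helper69.HA

open Set Filter Topology

section

variable {Ω : Type} [LinearOrder Ω]

/-- HA-T3. -/
theorem not_seq_spX {mem : Set Ω → Ω → Ω ⊕ ℕ → Prop} (hcl : IsClosed (spX mem))
    (hN : ∀ b, ∀ A : Set ℕ, A.Infinite → ∃ δ, {l | l ∈ A ∧ mem b δ (.inr l)}.Infinite) :
    ¬ SequentialSpace (spX mem) := by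
  intro hseq
  have hcomp : CompactSpace (spX mem) := isCompact_iff_compactSpace.1 hcl.isCompact
  set N : Set (spX mem) := {x | ∃ l, x.1 = ptN mem l} with hNdef
  have hc2 : Continuous fun x : spX mem => x.1.2 := continuous_snd.comp continuous_subtype_val
  have hc1 : ∀ c : Ω × Set Ω, Continuous fun x : spX mem => x.1.1 c := fun c =>
    (continuous_apply c).comp (continuous_fst.comp continuous_subtype_val)
  have h1 : IsSeqClosed N := by
    intro x y hx hxy
    choose l hl using hx
    rcases y.2 with h2 | h2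
    · obtain ⟨k, hk⟩ := h2
      exact ⟨k, hk.symm⟩
    · exfalso
      obtain ⟨b, hb⟩ := h2
      have hy2 : y.1.2 = OnePoint.infty := by rw [← hb]; rfl
      have h3 : Tendsto (fun n => (x n).1.2) atTop (𝓝 y.1.2) := (hc2.tendsto y).comp hxy
      have h4 : ∀ k : ℕ, ∀ᶠ n in atTop, l n ≠ k := by
        intro k
        have h5 : ({(k : OnePoint ℕ)}ᶜ : Set (OnePoint ℕ)) ∈ 𝓝 y.1.2 := by
          refine isOpen_compl_singleton.mem_nhds ?_
          rw [hy2]
          exact OnePoint.infty_ne_coe k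
        filter_upwards [h3 h5] with n hn hk
        apply hn
        show (x n).1.2 = (k : OnePoint ℕ)
        rw [hl n, ← hk]
        rfl
      have h5 : (range l).Infinite := by
        intro hfin
        have h6 : ∀ᶠ n in atTop, ∀ k ∈ range l, l n ≠ k :=
          (eventually_all_finite hfin).2 fun k _ => h4 k
        obtain ⟨n, hn⟩ := h6.exists
        exact hn (l n) (mem_range_self n) rfl
      obtain ⟨δ, hδ⟩ := hN b (range l) h5
      have h6 : ∀ᶠ n in atTop, (x n).1.1 (δ, b) = y.1.1 (δ, b) := by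
        have h7 : Tendsto (fun n => (x n).1.1 (δ, b)) atTop (𝓝 (y.1.1 (δ, b))) :=
          ((hc1 (δ, b)).tendsto y).comp hxy
        exact h7 ((isOpen_discrete {y.1.1 (δ, b)}).mem_nhds rfl)
      obtain ⟨n0, hn0⟩ := eventually_atTop.1 h6
      apply hδ
      refine ((finite_lt_nat n0).image l).subset ?_
      rintro k ⟨⟨n, rfl⟩, hk⟩
      refine ⟨n, ?_, rfl⟩
      by_contra hn
      have h8 := hn0 n (not_lt.1 hn)
      rw [hl n, ← hb] at h8
      classical
      have h9 : ¬ ∃ γ, IsDel b b γ ∧ mem b δ (.inl γ) := by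
        rintro ⟨γ, hγ, -⟩
        exact hγ.2 Iff.rfl
      have h10 : (ptB mem b).1 (δ, b) = decide (δ ∈ b) := by
        show (decide (∃ γ, IsDel b b γ ∧ mem b δ (.inl γ)) != decide (δ ∈ b)) = decide (δ ∈ b)
        rw [decide_eq_false h9]
        simp
      have h11 : (ptN mem (l n)).1 (δ, b) = !decide (δ ∈ b) := by
        show (decide (mem b δ (.inr (l n))) != decide (δ ∈ b)) = !decide (δ ∈ b)
        rw [decide_eq_true hk]
        simp
      rw [h10, h11] at h8
      simp at h8
  have h2 : IsClosed N := h1.isClosed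
  have h3 : IsCompact ((fun x : spX mem => x.1.2) '' N) := h2.isCompact.image hc2
  have h4 : (fun x : spX mem => x.1.2) '' N = range ((↑) : ℕ → OnePoint ℕ) := by
    ext z
    constructor
    · rintro ⟨x, ⟨l, hl⟩, rfl⟩
      exact ⟨l, by
        show (l : OnePoint ℕ) = x.1.2
        rw [hl]
        rfl⟩
    · rintro ⟨l, rfl⟩
      exact ⟨⟨ptN mem l, Or.inl ⟨l, rfl⟩⟩, ⟨l, rfl⟩, rfl⟩
  rw [h4] at h3
  have h5 : IsClosed (range ((↑) : ℕ → OnePoint ℕ)) := h3.isClosed
  have h6 : (OnePoint.infty : OnePoint ℕ) ∈ closure (range ((↑) : ℕ → OnePoint ℕ)) := by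
    have h7 : DenseRange ((↑) : ℕ → OnePoint ℕ) := OnePoint.denseRange_coe
    rw [h7.closure_range]
    exact mem_univ _
  rw [h5.closure_eq] at h6
  obtain ⟨l, hl⟩ := h6
  exact OnePoint.coe_ne_infty l hl

end

end Pool.Agent.Helper69.HA
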