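import Pool.Agent.Helper81.HA.Defs

/-!
# A compact space from a tree of partitions: combinatorics
-/

set_option autoImplicit false

namespace Pool.Agent.Helper81.HA

open Set

variable {Ω : Type} [LinearOrder Ω] [WellFoundedLT Ω]
variable {e : Ω → ℕ → Ω} {E : Ω → (Ω → Bool) → ℕ → Bool × ℕ}

theorem self_mem_V (b : Ω → Bool) (d : Ω) : d ∈ V e E b d := by
  rw [mem_V]; exact Or.inl rfl

theorem le_of_mem_V {b : Ω → Bool} {d g : Ω} (h : g ∈ V e E b d) : g ≤ d := by
  rw [mem_V] at h
  rcases h with h | h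
  · exact h.le
  · exact h.1.le

theorem mem_V_of_lt {b : Ω → Bool} {d g : Ω} (h : g < d) :
    g ∈ V e E b d ↔ sd e E b d g ≠ b d := by
  rw [mem_V]
  constructor
  · rintro (h1 | h1)
    · exact absurd h1 h.ne
    · exact h1.2
  · exact fun h1 => Or.inr ⟨h, h1⟩

section coh

variable (hE : Coh E)
include hE

/-- The sets at `d` depend only on the branch up to `d`. -/
theorem VW_congr {b b' : Ω → Bool} (d : Ω) (h : ∀ γ, γ ≤ d → b γ = b' γ) :
    V e E b d = V e E b' d ∧ W e E b d = W e E b' d := by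
  induction d using (wellFounded_lt (α := Ω)).induction with
  | _ d ih =>
    have h1 : ∀ γ, γ < d → V e E b γ = V e E b' γ ∧ W e E b γ = W e E b' γ :=
      fun γ hγ => ih γ hγ fun δ hδ => h δ (hδ.trans hγ.le)
    have hEd : E d b = E d b' := hE d b b' fun γ hγ => h γ hγ.le
    have h2 : ∀ g, idx e E b d g = idx e E b' d g := by
      intro g
      unfold idx
      congr 1
      ext m
      constructor
      · rintro ⟨h3, h4⟩
        exact ⟨h3, by rw [← (h1 _ h3).1]; exact h4⟩
      · rintro ⟨h3, h4⟩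
        exact ⟨h3, by rw [(h1 _ h3).1]; exact h4⟩
    have h3 : ∀ l, idxN e E b d l = idxN e E b' d l := by
      intro l
      unfold idxN
      congr 1
      ext m
      constructor
      · rintro (h3 | ⟨h3, h4⟩)
        · exact Or.inl h3
        · exact Or.inr ⟨h3, by rw [← (h1 _ h3).2]; exact h4⟩
      · rintro (h3 | ⟨h3, h4⟩)
        · exact Or.inl h3
        · exact Or.inr ⟨h3, by rw [(h1 _ h3).2]; exact h4⟩
    constructor
    · ext g
      rw [mem_V, mem_V]
      unfold sd
      rw [h2, hEd, h d le_rfl]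
    · ext l
      rw [mem_W, mem_W]
      unfold sdN
      rw [h3, hEd, h d le_rfl]

theorem idx_congr {b b' : Ω → Bool} {d : Ω} (h : ∀ γ, γ < d → b γ = b' γ) (g : Ω) :
    idx e E b d g = idx e E b' d g := by
  have h1 : ∀ γ, γ < d → V e E b γ = V e E b' γ :=
    fun γ hγ => (VW_congr hE γ fun δ hδ => h δ (lt_of_le_of_lt hδ hγ)).1
  unfold idx
  congr 1
  ext m
  constructor
  · rintro ⟨h3, h4⟩
    exact ⟨h3, by rw [← h1 _ h3]; exact h4⟩
  · rintro ⟨h3, h4⟩
    exact ⟨h3, by rw [h1 _ h3]; exact h4⟩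

theorem idxN_congr {b b' : Ω → Bool} {d : Ω} (h : ∀ γ, γ < d → b γ = b' γ) (l : ℕ) :
    idxN e E b d l = idxN e E b' d l := by
  have h1 : ∀ γ, γ < d → W e E b γ = W e E b' γ :=
    fun γ hγ => (VW_congr hE γ fun δ hδ => h δ (lt_of_le_of_lt hδ hγ)).2
  unfold idxN
  congr 1
  ext m
  constructor
  · rintro (h3 | ⟨h3, h4⟩)
    · exact Or.inl h3
    · exact Or.inr ⟨h3, by rw [← h1 _ h3]; exact h4⟩
  · rintro (h3 | ⟨h3, h4⟩)
    · exact Or.inl h3
    · exact Or.inr ⟨h3, by rw [h1 _ h3]; exact h4⟩

theorem sd_congr {b b' : Ω → Bool} {d : Ω} (h : ∀ γ, γ < d → b γ = b' γ) (g : Ω) :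
    sd e E b d g = sd e E b' d g := by
  unfold sd
  rw [idx_congr hE h, hE d b b' h]

theorem sdN_congr {b b' : Ω → Bool} {d : Ω} (h : ∀ γ, γ < d → b γ = b' γ) (l : ℕ) :
    sdN e E b d l = sdN e E b' d l := by
  unfold sdN
  rw [idxN_congr hE h, hE d b b' h]

end coh

section R

variable (he : ∀ d γ, γ < d → ∃ m, e d m = γ)
include he

theorem idx_mem (b : Ω → Bool) {d g : Ω} (h : g < d) :
    e d (idx e E b d g) < d ∧ g ∈ V e E b (e d (idx e E b d g)) := by
  have h1 : {m | e d m < d ∧ g ∈ V e E b (e d m)}.Nonempty := by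
    obtain ⟨m, hm⟩ := he d g h
    exact ⟨m, by rw [hm]; exact h, by rw [hm]; exact self_mem_V b g⟩
  exact Nat.sInf_mem h1

omit he in
theorem idx_not_mem (b : Ω → Bool) {d g : Ω} {i : ℕ} (hi : i < idx e E b d g)
    (h : e d i < d) : g ∉ V e E b (e d i) := fun h1 =>
  Nat.notMem_of_lt_sInf hi ⟨h, h1⟩

omit he in
theorem idx_eq (b : Ω → Bool) {d g : Ω} {m : ℕ} (h1 : e d m < d) (h2 : g ∈ V e E b (e d m))
    (h3 : ∀ i < m, e d i < d → g ∉ V e E b (e d i)) : idx e E b d g = m := by
  refine le_antisymm (Nat.sInf_le ⟨h1, h2⟩) ?_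
  by_contra hlt
  push Not at hlt
  have h4 : {m | e d m < d ∧ g ∈ V e E b (e d m)}.Nonempty := ⟨m, h1, h2⟩
  obtain ⟨h5, h6⟩ := Nat.sInf_mem h4
  exact h3 _ hlt h5 h6

omit he in
theorem idxN_eq (b : Ω → Bool) {d : Ω} {l m : ℕ} (h1 : e d m < d) (h2 : l ∈ W e E b (e d m))
    (h3 : ∀ i < m, i ≠ l ∧ (e d i < d → l ∉ W e E b (e d i))) : idxN e E b d l = m := by
  have h4 : {m | m = l ∨ e d m < d ∧ l ∈ W e E b (e d m)}.Nonempty := ⟨l, Or.inl rfl⟩
  refine le_antisymm (Nat.sInf_le (Or.inr ⟨h1, h2⟩)) ?_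
  by_contra hlt
  push Not at hlt
  rcases Nat.sInf_mem h4 with h5 | ⟨h5, h6⟩
  · exact (h3 _ hlt).1 h5
  · exact (h3 _ hlt).2 h5 h6

/-- The sets `V b α`, `W b α` are almost contained in one piece at every later node. -/
theorem node (b : Ω → Bool) (d : Ω) : ∀ α, α < d → ∃ (F : Finset Ω) (K : Finset ℕ),
    (∀ β ∈ F, β < α) ∧
    (∀ g ∈ V e E b α, (∃ β ∈ F, g ∈ V e E b β) ∨ idx e E b d g = idx e E b d α) ∧
    (∀ l ∈ W e E b α, (∃ β ∈ F, l ∈ W e E b β) ∨ l ∈ K ∨ idxN e E b d l = idx e E b d α) := by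
  classical
  induction d using (wellFounded_lt (α := Ω)).induction with
  | _ d ih =>
    -- the consequences for the sets at smaller places
    have R : ∀ δ, δ < d → ∀ α, α < δ → ∃ (F : Finset Ω) (K : Finset ℕ), (∀ β ∈ F, β < α) ∧
        (α ∈ V e E b δ → (∀ g ∈ V e E b α, (∃ β ∈ F, g ∈ V e E b β) ∨ g ∈ V e E b δ) ∧
          ∀ l ∈ W e E b α, (∃ β ∈ F, l ∈ W e E b β) ∨ l ∈ K ∨ l ∈ W e E b δ) ∧
        (α ∉ V e E b δ → (∀ g ∈ V e E b α, (∃ β ∈ F, g ∈ V e E b β) ∨ g ∉ V e E b δ) ∧
          ∀ l ∈ W e E b α, (∃ β ∈ F, l ∈ W e E b β) ∨ l ∈ K ∨ l ∉ W e E b δ) := by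
      intro δ hδ α hα
      obtain ⟨F, K, hF, h1, h2⟩ := ih δ hδ α hα
      refine ⟨F, K ∪ Finset.range (E δ b (idx e E b δ α)).2, hF, ?_, ?_⟩
      · intro h3
        rw [mem_V_of_lt hα] at h3
        constructor
        · intro g hg
          rcases h1 g hg with h4 | h4
          · exact Or.inl h4
          · right
            rw [mem_V_of_lt (lt_of_le_of_lt (le_of_mem_V hg) hα)]
            unfold sd at h3 ⊢
            rw [h4]
            exact h3
        · intro l hl
          rcases h2 l hl with h4 | h4 | h4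
          · exact Or.inl h4
          · exact Or.inr (Or.inl (Finset.mem_union_left _ h4))
          · by_cases h5 : l < (E δ b (idx e E b δ α)).2
            · exact Or.inr (Or.inl (Finset.mem_union_right _ (Finset.mem_range.2 h5)))
            · right; right
              rw [mem_W]
              unfold sdN
              unfold sd at h3
              rw [h4, decide_eq_false h5, Bool.xor_false]
              exact h3
      · intro h3
        rw [mem_V_of_lt hα, not_not] at h3
        constructor
        · intro g hg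
          rcases h1 g hg with h4 | h4
          · exact Or.inl h4
          · right
            rw [mem_V_of_lt (lt_of_le_of_lt (le_of_mem_V hg) hα), not_not]
            unfold sd at h3 ⊢
            rw [h4]
            exact h3
        · intro l hl
          rcases h2 l hl with h4 | h4 | h4
          · exact Or.inl h4
          · exact Or.inr (Or.inl (Finset.mem_union_left _ h4))
          · by_cases h5 : l < (E δ b (idx e E b δ α)).2
            · exact Or.inr (Or.inl (Finset.mem_union_right _ (Finset.mem_range.2 h5)))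
            · right; right
              rw [mem_W, not_not]
              unfold sdN
              unfold sd at h3
              rw [h4, decide_eq_false h5, Bool.xor_false]
              exact h3
    intro α hα
    set m := idx e E b d α with hm
    obtain ⟨hm1, hm2⟩ := idx_mem he (E := E) b hα
    rw [← hm] at hm1 hm2
    -- the data for every index `i ≤ m`
    have key : ∀ i, i ≤ m → ∃ (F : Finset Ω) (K : Finset ℕ), (∀ β ∈ F, β < α) ∧
        (i = m → (∀ g ∈ V e E b α, (∃ β ∈ F, g ∈ V e E b β) ∨ g ∈ V e E b (e d i)) ∧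
          ∀ l ∈ W e E b α, (∃ β ∈ F, l ∈ W e E b β) ∨ l ∈ K ∨ l ∈ W e E b (e d i)) ∧
        (i < m → e d i < d →
          (∀ g ∈ V e E b α, (∃ β ∈ F, g ∈ V e E b β) ∨ g ∉ V e E b (e d i)) ∧
          ∀ l ∈ W e E b α, (∃ β ∈ F, l ∈ W e E b β) ∨ l ∈ K ∨ l ∉ W e E b (e d i)) := by
      intro i hi
      by_cases hid : e d i < d
      · rcases lt_trichotomy (e d i) α with h1 | h1 | h1
        · refine ⟨{e d i}, ∅, by simpa using h1, ?_, ?_⟩
          · rintro rfl
            exact absurd (le_of_mem_V hm2) (not_le.2 h1)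
          · intro _ _
            constructor
            · intro g _
              by_cases h2 : g ∈ V e E b (e d i)
              · exact Or.inl ⟨e d i, by simp, h2⟩
              · exact Or.inr h2
            · intro l _
              by_cases h2 : l ∈ W e E b (e d i)
              · exact Or.inl ⟨e d i, by simp, h2⟩
              · exact Or.inr (Or.inr h2)
        · refine ⟨∅, ∅, by simp, ?_, ?_⟩
          · intro _
            rw [h1]
            exact ⟨fun g hg => Or.inr hg, fun l hl => Or.inr (Or.inr hl)⟩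
          · intro h2 _
            exfalso
            refine idx_not_mem b (hm ▸ h2) hid ?_
            rw [h1]
            exact self_mem_V b α
        · obtain ⟨F, K, hF, h2, h3⟩ := R (e d i) hid α h1
          refine ⟨F, K, hF, ?_, ?_⟩
          · rintro rfl
            exact h2 hm2
          · intro h4 _
            exact h3 (idx_not_mem b (hm ▸ h4) hid)
      · refine ⟨∅, ∅, by simp, ?_, ?_⟩
        · rintro rfl
          exact absurd hm1 hid
        · intro _ h
          exact absurd h hid
    choose! F K hF h1 h2 using key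
    refine ⟨(Finset.range (m + 1)).biUnion F,
      (Finset.range (m + 1)).biUnion K ∪ Finset.range m, ?_, ?_, ?_⟩
    · intro β hβ
      obtain ⟨i, hi, hi'⟩ := Finset.mem_biUnion.1 hβ
      exact hF i (Nat.lt_succ_iff.1 (Finset.mem_range.1 hi)) β hi'
    · intro g hg
      by_cases h3 : ∃ β ∈ (Finset.range (m + 1)).biUnion F, g ∈ V e E b β
      · exact Or.inl h3
      · right
        push Not at h3
        have h4 : ∀ i, i ≤ m → ¬ ∃ β ∈ F i, g ∈ V e E b β := by
          rintro i hi ⟨β, hβ, h5⟩
          exact h3 β (Finset.mem_biUnion.2 ⟨i, Finset.mem_range.2 (by omega), hβ⟩) h5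
        refine idx_eq b hm1 ?_ ?_
        · exact ((h1 m le_rfl rfl).1 g hg).resolve_left (h4 m le_rfl)
        · intro i hi hid
          exact ((h2 i hi.le hi hid).1 g hg).resolve_left (h4 i hi.le)
    · intro l hl
      by_cases h3 : ∃ β ∈ (Finset.range (m + 1)).biUnion F, l ∈ W e E b β
      · exact Or.inl h3
      by_cases h3' : l ∈ (Finset.range (m + 1)).biUnion K ∪ Finset.range m
      · exact Or.inr (Or.inl h3')
      · right; right
        push Not at h3
        rw [Finset.mem_union, not_or] at h3'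
        have h4 : ∀ i, i ≤ m → ¬ ∃ β ∈ F i, l ∈ W e E b β := by
          rintro i hi ⟨β, hβ, h5⟩
          exact h3 β (Finset.mem_biUnion.2 ⟨i, Finset.mem_range.2 (by omega), hβ⟩) h5
        have h5 : ∀ i, i ≤ m → l ∉ K i := fun i hi h6 =>
          h3'.1 (Finset.mem_biUnion.2 ⟨i, Finset.mem_range.2 (by omega), h6⟩)
        refine idxN_eq b hm1 ?_ ?_
        · exact (((h1 m le_rfl rfl).2 l hl).resolve_left (h4 m le_rfl)).resolve_left (h5 m le_rfl)
        · intro i hi
          refine ⟨?_, fun hid => ?_⟩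
          · rintro rfl
            exact h3'.2 (Finset.mem_range.2 hi)
          · exact (((h2 i hi.le hi hid).2 l hl).resolve_left (h4 i hi.le)).resolve_left
              (h5 i hi.le)

end R

end Pool.Agent.Helper81.HA
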