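import Mathlib

/-!
# A compact space from a tree of partitions: definitions

`Ω` is a well-order (of type `ω₁`), `e d` enumerates the predecessors of `d`, and `E d b`
depends on `b` below `d` only: it is the value at the node `b | d` of the tree `2 ^ (< ω₁)`.
For every branch `b` we define sets `V b d ⊆ {γ | γ ≤ d}` and `W b d ⊆ ℕ`.
-/

set_option autoImplicit false

namespace Pool.Agent.Helper81.HA

open Set

variable {Ω : Type} [LinearOrder Ω] [WellFoundedLT Ω]

section

variable (e : Ω → ℕ → Ω) (E : Ω → (Ω → Bool) → ℕ → Bool × ℕ)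

/-- One step of the recursion: the sets at `d` from the sets at the smaller places. -/
noncomputable def stepV (b : Ω → Bool) (d : Ω) (IH : (γ : Ω) → γ < d → Set Ω × Set ℕ) :
    Set Ω × Set ℕ :=
  ({g | g = d ∨ g < d ∧ (E d b (sInf {m | ∃ h : e d m < d, g ∈ (IH (e d m) h).1})).1 ≠ b d},
   {l | xor (E d b (sInf {m | m = l ∨ ∃ h : e d m < d, l ∈ (IH (e d m) h).2})).1
      (decide (l < (E d b (sInf {m | m = l ∨ ∃ h : e d m < d, l ∈ (IH (e d m) h).2})).2)) ≠ b d})

/-- The pair of the sets `V b d` and `W b d`. -/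
noncomputable def VW (b : Ω → Bool) : Ω → Set Ω × Set ℕ :=
  (wellFounded_lt (α := Ω)).fix (stepV e E b)

/-- The sets `V b d`: the types of the points which are not in the neighbourhood `d` of `b`. -/
noncomputable def V (b : Ω → Bool) (d : Ω) : Set Ω := (VW e E b d).1

/-- The sets `W b d`: the natural numbers which are not in the neighbourhood `d` of `b`. -/
noncomputable def W (b : Ω → Bool) (d : Ω) : Set ℕ := (VW e E b d).2

/-- The index of `g` at the node `b | d`. -/
noncomputable def idx (b : Ω → Bool) (d g : Ω) : ℕ :=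
  sInf {m | e d m < d ∧ g ∈ V e E b (e d m)}

/-- The index of the natural number `l` at the node `b | d`. -/
noncomputable def idxN (b : Ω → Bool) (d : Ω) (l : ℕ) : ℕ :=
  sInf {m | m = l ∨ e d m < d ∧ l ∈ W e E b (e d m)}

/-- The side of `g` at the node `b | d`. -/
noncomputable def sd (b : Ω → Bool) (d g : Ω) : Bool := (E d b (idx e E b d g)).1

/-- The side of the natural number `l` at the node `b | d`. -/
noncomputable def sdN (b : Ω → Bool) (d : Ω) (l : ℕ) : Bool :=
  xor (E d b (idxN e E b d l)).1 (decide (l < (E d b (idxN e E b d l)).2))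

theorem VW_eq (b : Ω → Bool) (d : Ω) : VW e E b d = stepV e E b d fun γ _ => VW e E b γ :=
  WellFounded.fix_eq _ _ _

theorem mem_V {b : Ω → Bool} {d g : Ω} :
    g ∈ V e E b d ↔ g = d ∨ g < d ∧ sd e E b d g ≠ b d := by
  have h : {m | ∃ _ : e d m < d, g ∈ (VW e E b (e d m)).1} =
      {m | e d m < d ∧ g ∈ V e E b (e d m)} := by
    ext m
    simp [V]
  unfold V
  rw [VW_eq]
  show (g = d ∨ g < d ∧ (E d b (sInf {m | ∃ h : e d m < d, g ∈ (VW e E b (e d m)).1})).1 ≠ b d) ↔
    (g = d ∨ g < d ∧ (E d b (sInf {m | e d m < d ∧ g ∈ V e E b (e d m)})).1 ≠ b d)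
  rw [h]

theorem mem_W {b : Ω → Bool} {d : Ω} {l : ℕ} : l ∈ W e E b d ↔ sdN e E b d l ≠ b d := by
  have h : {m | m = l ∨ ∃ _ : e d m < d, l ∈ (VW e E b (e d m)).2} =
      {m | m = l ∨ e d m < d ∧ l ∈ W e E b (e d m)} := by
    ext m
    simp [W]
  unfold W
  rw [VW_eq]
  show (xor (E d b (sInf {m | m = l ∨ ∃ _ : e d m < d, l ∈ (VW e E b (e d m)).2})).1
      (decide (l < (E d b (sInf {m | m = l ∨ ∃ _ : e d m < d, l ∈ (VW e E b (e d m)).2})).2)) ≠
        b d) ↔
    (xor (E d b (sInf {m | m = l ∨ e d m < d ∧ l ∈ W e E b (e d m)})).1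
      (decide (l < (E d b (sInf {m | m = l ∨ e d m < d ∧ l ∈ W e E b (e d m)})).2)) ≠ b d)
  rw [h]

end

/-- The value of `E` at a node depends only on the node. -/
def Coh (E : Ω → (Ω → Bool) → ℕ → Bool × ℕ) : Prop :=
  ∀ d b b', (∀ γ, γ < d → b γ = b' γ) → E d b = E d b'

/-- The hypothesis on the branch `b` which makes the space hereditarily `α`-realcompact. -/
def Hyp (e : Ω → ℕ → Ω) (E : Ω → (Ω → Bool) → ℕ → Bool × ℕ) (b : Ω → Bool) : Prop :=
  ∃ φ : Ω → ℕ, ∀ d n, {g | g ∈ V e E b d ∧ φ g = n}.Finite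

/-- The hypothesis on the branch `b`: no sequence of natural numbers converges to `b`. -/
def NoSeq (e : Ω → ℕ → Ω) (E : Ω → (Ω → Bool) → ℕ → Bool × ℕ) (b : Ω → Bool) : Prop :=
  ∀ A : Set ℕ, A.Infinite → ∃ d, (A ∩ W e E b d).Infinite

end Pool.Agent.Helper81.HA
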