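import Pool.Agent.Helper81.HA.Space

/-!
# A compact space from a tree of partitions: hereditary `α`-realcompactness, sequentiality
-/

set_option autoImplicit false

namespace Pool.Agent.Helper81.HA

open Set Filter Topology

/-- `S` is `α`-realcompact, in the form of the problem. -/
def AlphaRC (S : Type) [TopologicalSpace S] : Prop :=
  ∀ F : Set (Set S), (∀ C ∈ F, IsClosed C) →
    (∀ G : Finset (Set S), (↑G : Set (Set S)) ⊆ F → (⋂₀ (↑G : Set (Set S))).Nonempty) →
    (∀ H : Set (Set S), F ⊆ H → (∀ C ∈ H, IsClosed C) →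
      (∀ G : Finset (Set S), (↑G : Set (Set S)) ⊆ H → (⋂₀ (↑G : Set (Set S))).Nonempty) →
      H = F) →
    (∀ G : Set (Set S), G ⊆ F → G.Countable → (⋂₀ G).Nonempty) → (⋂₀ F).Nonempty

section maxl

variable {S : Type} [TopologicalSpace S] {F : Set (Set S)}
  (h1 : ∀ C ∈ F, IsClosed C)
  (h2 : ∀ G : Finset (Set S), (↑G : Set (Set S)) ⊆ F → (⋂₀ (↑G : Set (Set S))).Nonempty)
  (h3 : ∀ H : Set (Set S), F ⊆ H → (∀ C ∈ H, IsClosed C) →
      (∀ G : Finset (Set S), (↑G : Set (Set S)) ⊆ H → (⋂₀ (↑G : Set (Set S))).Nonempty) →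
      H = F)

include h1 h3 in
theorem mem_of_meets {C : Set S} (hC : IsClosed C)
    (h : ∀ G : Finset (Set S), (↑G : Set (Set S)) ⊆ F → (C ∩ ⋂₀ (↑G : Set (Set S))).Nonempty) :
    C ∈ F := by
  classical
  have h4 : insert C F = F := by
    refine h3 _ (subset_insert _ _) ?_ ?_
    · rintro D (rfl | hD)
      · exact hC
      · exact h1 D hD
    · intro G hG
      obtain ⟨x, hx1, hx2⟩ := h (G.erase C) (by
        intro D hD
        rw [Finset.coe_erase] at hD
        rcases hG hD.1 with h5 | h5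
        · exact absurd h5 hD.2
        · exact h5)
      refine ⟨x, fun D hD => ?_⟩
      by_cases h5 : D = C
      · rw [h5]; exact hx1
      · exact hx2 D (by rw [Finset.coe_erase]; exact ⟨hD, h5⟩)
  rw [← h4]
  exact mem_insert _ _

include h1 h2 h3 in
theorem sInter_mem (G : Finset (Set S)) (hG : (↑G : Set (Set S)) ⊆ F) :
    ⋂₀ (↑G : Set (Set S)) ∈ F := by
  classical
  refine mem_of_meets h1 h3 (isClosed_sInter fun D hD => h1 D (hG hD)) fun G' hG' => ?_
  have h4 := h2 (G ∪ G') (by rw [Finset.coe_union]; exact union_subset hG hG')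
  rwa [Finset.coe_union, sInter_union] at h4

include h1 h2 h3 in
theorem univ_mem_F : (univ : Set S) ∈ F := by
  have h4 := sInter_mem h1 h2 h3 ∅ (by simp)
  simpa using h4

include h1 h2 h3 in
theorem exists_disjoint {C : Set S} (hC : IsClosed C) (h : C ∉ F) : ∃ D ∈ F, C ∩ D = ∅ := by
  by_contra hcon
  push Not at hcon
  refine h (mem_of_meets h1 h3 hC fun G hG => ?_)
  exact hcon _ (sInter_mem h1 h2 h3 G hG)

include h2 in
theorem nonempty_of_mem {C : Set S} (hC : C ∈ F) : C.Nonempty := by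
  have := h2 {C} (by simpa using hC)
  simpa using this

include h1 h2 h3 in
theorem inter_mem_F {C D : Set S} (hC : C ∈ F) (hD : D ∈ F) : C ∩ D ∈ F := by
  classical
  have h4 := sInter_mem h1 h2 h3 {C, D} (by
    intro x hx
    simp only [Finset.coe_insert, Finset.coe_singleton, mem_insert_iff, mem_singleton_iff] at hx
    rcases hx with rfl | rfl
    · exact hC
    · exact hD)
  simpa using h4

include h1 h3 in
theorem countable_inter_mem (h4 : ∀ G : Set (Set S), G ⊆ F → G.Countable → (⋂₀ G).Nonempty)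
    (D : ℕ → Set S) (hD : ∀ n, D n ∈ F) : ⋂ n, D n ∈ F := by
  refine mem_of_meets h1 h3 (isClosed_iInter fun n => h1 _ (hD n)) fun G hG => ?_
  have h5 := h4 (range D ∪ ↑G) (union_subset (by rintro _ ⟨n, rfl⟩; exact hD n) hG)
    ((countable_range D).union G.countable_toSet)
  rwa [sInter_union, sInter_range] at h5

end maxl

variable {Ω : Type} [LinearOrder Ω] [WellFoundedLT Ω]
variable {e : Ω → ℕ → Ω} {E : Ω → (Ω → Bool) → ℕ → Bool × ℕ}

/-- The points whose type with respect to `b` is in `T`. -/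
def typ (b : Ω → Bool) (T : Set Ω) : Set (Sp e E) :=
  {x | ∃ c, x = ptB e E c ∧ ∃ γ ∈ T, c γ ≠ b γ ∧ ∀ δ, δ < γ → c δ = b δ}

theorem isOpen_away {b : Ω → Bool} {T : Set Ω} (hT : ∀ d, {g | g ∈ V e E b d ∧ g ∈ T}.Finite)
    {x : Sp e E} (hx : x ∉ typ (e := e) (E := E) b T) (hxb : x ≠ ptB e E b) :
    ∃ O : Set (Sp e E), IsOpen O ∧ x ∈ O ∧ ∀ y ∈ O, y ∉ typ (e := e) (E := E) b T := by
  rcases x with l | c
  · refine ⟨{ptN e E l}, isOpen_ptN l, rfl, ?_⟩
    rintro y rfl ⟨c, hc, -⟩
    cases hc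
  · have hxc : (Sum.inr c : Sp e E) = ptB e E c := rfl
    rw [hxc] at hx hxb ⊢
    have hne : c ≠ b := fun h => hxb (by rw [h])
    obtain ⟨α, h1, h2⟩ := exists_split hne
    have hαT : α ∉ T := fun h => hx ⟨c, rfl, α, h, h1, h2⟩
    have hfin := hT α
    let O : Set (Sp e E) := {y | side e E y α b = c α} ∩
      ⋂ β ∈ {g | g ∈ V e E b α ∧ g ∈ T}, {y | side e E y β b = b β}
    have hO : IsOpen O :=
      (isOpen_side α b (c α)).inter (hfin.isOpen_biInter fun β _ => isOpen_side β b (b β))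
    refine ⟨O, hO, ⟨side_agree e E h2, ?_⟩, ?_⟩
    · rw [mem_iInter₂]
      rintro β ⟨hβ1, hβ2⟩
      have hβ : β < α := lt_of_le_of_ne (le_of_mem_V hβ1) (by rintro rfl; exact hαT hβ2)
      show side e E (ptB e E c) β b = b β
      rw [side_agree e E fun δ hδ => h2 δ (hδ.trans hβ), h2 β hβ]
    · rintro y ⟨hy1, hy2⟩ ⟨c', rfl, γ, hγT, h3, h4⟩
      have hy1' : side e E (ptB e E c') α b = c α := hy1
      rcases lt_trichotomy γ α with h5 | h5 | h5
      · rw [side_split e E h5 h3 h4] at hy1'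
        have h6 : γ ∈ V e E b α := by
          rw [mem_V_of_lt h5, hy1']
          exact h1
        rw [mem_iInter₂] at hy2
        have h7 : side e E (ptB e E c') γ b = b γ := hy2 γ ⟨h6, hγT⟩
        rw [side_agree e E h4] at h7
        exact h3 h7
      · exact hαT (h5 ▸ hγT)
      · rw [side_agree e E fun δ hδ => h4 δ (hδ.trans h5), h4 α h5] at hy1'
        exact h1 hy1'.symm

section

variable (he : ∀ d γ, γ < d → ∃ m, e d m = γ) (hE : Coh E)
include he hE

/-- The space is hereditarily `α`-realcompact. -/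
theorem alphaRC (hj : ∃ j : Ω → ℕ → Bool, Function.Injective j) (hyp : ∀ b, Hyp e E b)
    (S : Set (Sp e E)) : AlphaRC S := by
  classical
  intro F h1 h2 h3 h4
  have hcomp : CompactSpace (Sp e E) := compactSpace he hE
  by_contra hempty
  rw [not_nonempty_iff_eq_empty] at hempty
  -- a point in the closure of all members
  obtain ⟨p, hp⟩ : ∃ p : Sp e E, ∀ C ∈ F, p ∈ closure ((↑) '' C : Set (Sp e E)) := by
    have h5 : (⋂ C : F, closure ((↑) '' (C : Set S) : Set (Sp e E))).Nonempty := by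
      refine CompactSpace.iInter_nonempty (fun C => isClosed_closure) fun G => ?_
      obtain ⟨x, hx⟩ := nonempty_of_mem h2 (sInter_mem h1 h2 h3 (G.image (↑)) (by
        intro C hC
        rw [Finset.coe_image] at hC
        obtain ⟨D, -, rfl⟩ := hC
        exact D.2))
      refine ⟨x, ?_⟩
      rw [mem_iInter₂]
      intro C hC
      refine subset_closure ⟨x, hx _ ?_, rfl⟩
      rw [Finset.coe_image]
      exact ⟨C, hC, rfl⟩
    obtain ⟨p, hp⟩ := h5
    rw [mem_iInter] at hp
    exact ⟨p, fun C hC => hp ⟨C, hC⟩⟩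
  have hpS : p ∉ S := by
    intro hpS
    have h5 : (⟨p, hpS⟩ : S) ∈ ⋂₀ F := by
      intro C hC
      have h6 : (⟨p, hpS⟩ : S) ∈ closure C := by
        rw [Topology.IsInducing.subtypeVal.closure_eq_preimage_closure_image]
        exact hp C hC
      rwa [(h1 C hC).closure_eq] at h6
    rw [hempty] at h5
    exact h5
  -- neighbourhoods of `p` which are closed belong to `F`
  have hnb : ∀ N : Set (Sp e E), IsOpen N → IsClosed N → p ∈ N → ((↑) ⁻¹' N : Set S) ∈ F := by
    intro N hN hN' hpN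
    refine mem_of_meets h1 h3 (hN'.preimage continuous_subtype_val) fun G hG => ?_
    have h5 := hp _ (sInter_mem h1 h2 h3 G hG)
    rw [mem_closure_iff] at h5
    obtain ⟨_, h6, x, hx, rfl⟩ := h5 N hN hpN
    exact ⟨x, h6, hx⟩
  rcases p with l | b
  · have h5 := hp _ (univ_mem_F h1 h2 h3)
    rw [mem_closure_iff] at h5
    obtain ⟨_, h6, x, -, rfl⟩ := h5 {ptN e E l} (isOpen_ptN l) rfl
    have h7 : (x : Sp e E) = ptN e E l := h6
    have h8 : ptN e E l ∈ S := h7 ▸ x.2
    exact hpS h8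
  · have hpb : (Sum.inr b : Sp e E) = ptB e E b := rfl
    rw [hpb] at hp hpS hnb
    have hclosed : ∀ (d : Ω) (u : Bool), IsClosed {y : Sp e E | side e E y d b = u} := by
      intro d u
      have h5 : {y : Sp e E | side e E y d b = u} = {y | side e E y d b = !u}ᶜ := by
        ext y
        simp only [mem_ofPred_eq, mem_compl_iff]
        cases side e E y d b <;> cases u <;> simp
      rw [h5]
      exact (isOpen_side d b (!u)).isClosed_compl
    have hN : ∀ d, ((↑) ⁻¹' {y : Sp e E | side e E y d b = b d} : Set S) ∈ F := fun d =>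
      hnb _ (isOpen_side d b (b d)) (hclosed d (b d)) (side_agree e E fun _ _ => rfl)
    have hL : ∀ l, ((↑) ⁻¹' {y : Sp e E | y ≠ ptN e E l} : Set S) ∈ F := fun l =>
      hnb _ (isOpen_ne_ptN l) (isOpen_ptN l).isClosed_compl (fun h => by cases h)
    have hL' := countable_inter_mem h1 h3 h4 _ hL
    obtain ⟨φ, hφ⟩ := hyp b
    let Y : Set Ω → Set S := fun T => (↑) ⁻¹' (typ (e := e) (E := E) b T)
    have hYcl : ∀ T : Set Ω, (∀ d, {g | g ∈ V e E b d ∧ g ∈ T}.Finite) → IsClosed (Y T) := by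
      intro T hT
      rw [← isOpen_compl_iff, isOpen_iff_forall_mem_open]
      intro x hx
      have hxb : (x : Sp e E) ≠ ptB e E b := fun h => hpS (h ▸ x.2)
      obtain ⟨O, hO, hxO, hO'⟩ := isOpen_away hT (x := (x : Sp e E)) hx hxb
      exact ⟨Subtype.val ⁻¹' O, fun y hy => hO' _ hy, hO.preimage continuous_subtype_val, hxO⟩
    have hfin : ∀ n, ∀ T : Set Ω, T ⊆ {g | φ g = n} →
        ∀ d, {g | g ∈ V e E b d ∧ g ∈ T}.Finite := fun n T hT d =>
      (hφ d n).subset fun g hg => ⟨hg.1, hT hg.2⟩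
    -- one of the pieces belongs to `F`
    obtain ⟨n, hn⟩ : ∃ n, Y {g | φ g = n} ∈ F := by
      by_contra hcon
      push Not at hcon
      have h5 : ∀ n, ∃ D ∈ F, Y {g | φ g = n} ∩ D = ∅ := fun n =>
        exists_disjoint h1 h2 h3 (hYcl _ (hfin n _ Subset.rfl)) (hcon n)
      choose D hD hD' using h5
      have h6 := countable_inter_mem h1 h3 h4 D hD
      obtain ⟨x, hx1, hx2⟩ := nonempty_of_mem h2 (inter_mem_F h1 h2 h3 hL' h6)
      rw [mem_iInter] at hx1 hx2
      obtain ⟨x, hxS⟩ := x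
      rcases x with l | c
      · exact hx1 l rfl
      · have hne : c ≠ b := by
          rintro rfl
          exact hpS hxS
        obtain ⟨γ, h7, h8⟩ := exists_split hne
        have h9 : (⟨Sum.inr c, hxS⟩ : S) ∈ Y {g | φ g = φ γ} := ⟨c, rfl, γ, rfl, h7, h8⟩
        have h10 : (⟨Sum.inr c, hxS⟩ : S) ∈ Y {g | φ g = φ γ} ∩ D (φ γ) := ⟨h9, hx2 (φ γ)⟩
        rw [hD'] at h10
        exact h10
    obtain ⟨j, hj⟩ := hj
    have hbit : ∀ i : ℕ, ∃ u : Bool, Y {g | φ g = n ∧ j g i = u} ∈ F := by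
      intro i
      by_contra hcon
      push Not at hcon
      have hcl : ∀ u : Bool, IsClosed (Y {g | φ g = n ∧ j g i = u}) := fun u =>
        hYcl _ (hfin n {g | φ g = n ∧ j g i = u} fun g hg => hg.1)
      obtain ⟨D, hD, hD'⟩ := exists_disjoint h1 h2 h3 (hcl true) (hcon true)
      obtain ⟨D', hD1, hD2⟩ := exists_disjoint h1 h2 h3 (hcl false) (hcon false)
      obtain ⟨x, ⟨hx1, hx2⟩, hx3⟩ := nonempty_of_mem h2
        (inter_mem_F h1 h2 h3 (inter_mem_F h1 h2 h3 hn hD) hD1)
      obtain ⟨c, hc, γ, hγ, h5, h6⟩ := hx1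
      cases hu : j γ i with
      | true =>
        have h7 : x ∈ Y {g | φ g = n ∧ j g i = true} ∩ D := ⟨⟨c, hc, γ, ⟨hγ, hu⟩, h5, h6⟩, hx2⟩
        rw [hD'] at h7
        exact h7
      | false =>
        have h7 : x ∈ Y {g | φ g = n ∧ j g i = false} ∩ D' := ⟨⟨c, hc, γ, ⟨hγ, hu⟩, h5, h6⟩, hx3⟩
        rw [hD2] at h7
        exact h7
    choose u hu using hbit
    have h5 := countable_inter_mem h1 h3 h4 _ hu
    obtain ⟨x, hx⟩ := nonempty_of_mem h2 h5
    rw [mem_iInter] at hx
    obtain ⟨c, hc, γ, ⟨hγ1, -⟩, h6, h7⟩ := hx 0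
    have huniq : ∀ (c' : Ω → Bool) (γ' : Ω), (x : Sp e E) = ptB e E c' → c' γ' ≠ b γ' →
        (∀ δ, δ < γ' → c' δ = b δ) → γ' = γ := by
      intro c' γ' hc' h8 h9
      have h10 : c = c' := by
        have := hc.symm.trans hc'
        exact Sum.inr_injective this
      subst h10
      rcases lt_trichotomy γ' γ with h11 | h11 | h11
      · exact absurd (h7 _ h11) h8
      · exact h11
      · exact absurd (h9 _ h11) h6
    have hju : ∀ i, j γ i = u i := by
      intro i
      obtain ⟨c', hc', γ', ⟨-, h8⟩, h9, h10⟩ := hx i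
      rw [← huniq c' γ' hc' h9 h10]
      exact h8
    -- contradiction at the neighbourhood `γ`
    obtain ⟨y, hy1, hy2⟩ := nonempty_of_mem h2 (inter_mem_F h1 h2 h3 h5 (hN γ))
    rw [mem_iInter] at hy1
    obtain ⟨c1, hc1, γ1, ⟨-, -⟩, h8, h9⟩ := hy1 0
    have h10 : γ1 = γ := by
      apply hj
      funext i
      obtain ⟨c', hc', γ', ⟨-, h11⟩, h12, h13⟩ := hy1 i
      have h14 : c1 = c' := Sum.inr_injective (hc1.symm.trans hc')
      subst h14
      have h15 : γ' = γ1 := by
        rcases lt_trichotomy γ' γ1 with h16 | h16 | h16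
        · exact absurd (h9 _ h16) h12
        · exact h16
        · exact absurd (h13 _ h16) h8
      rw [← h15, h11, hju]
    subst h10
    have h11 : side e E (y : Sp e E) γ1 b = b γ1 := hy2
    rw [hc1, side_agree e E h9] at h11
    exact h8 h11

/-- The space is not sequential. -/
theorem not_sequential (hns : ∀ b, NoSeq e E b) : ¬ SequentialSpace (Sp e E) := by
  intro hseq
  have hcomp : CompactSpace (Sp e E) := compactSpace he hE
  have h1 : IsSeqClosed (range (ptN e E)) := by
    intro x p hx hlim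
    rcases p with l | b
    · exact ⟨l, rfl⟩
    · exfalso
      have hpb : (Sum.inr b : Sp e E) = ptB e E b := rfl
      rw [hpb] at hlim
      choose k hk using hx
      have hinf : (range k).Infinite := by
        intro hfin
        have h2 : ∀ᶠ n in atTop, ∀ l ∈ hfin.toFinset, x n ≠ ptN e E l := by
          rw [Filter.eventually_all_finset]
          intro l _
          exact hlim.eventually_mem ((isOpen_ne_ptN l).mem_nhds (fun h => by cases h))
        obtain ⟨n, hn⟩ := h2.exists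
        exact hn (k n) (hfin.mem_toFinset.2 ⟨n, rfl⟩) (hk n).symm
      obtain ⟨d, hd⟩ := hns b _ hinf
      have h2 : ∀ᶠ n in atTop, side e E (x n) d b = b d :=
        hlim.eventually_mem ((isOpen_side d b (b d)).mem_nhds (side_agree e E fun _ _ => rfl))
      obtain ⟨N, hN⟩ := eventually_atTop.1 h2
      refine hd ((Set.finite_lt_nat N).image k |>.subset ?_)
      rintro l ⟨⟨n, rfl⟩, hl⟩
      refine ⟨n, ?_, rfl⟩
      by_contra hn
      have h3 := hN n (not_lt.1 hn)
      rw [← hk n, side_ptN] at h3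
      rw [mem_W] at hl
      exact hl h3
  have h2 : IsClosed (range (ptN e E)) := h1.isClosed
  -- a nonprincipal ultrafilter
  let U : Ultrafilter (Sp e E) := Ultrafilter.map (ptN e E) (hyperfilter ℕ)
  obtain ⟨p, -, hp⟩ := isCompact_iff_ultrafilter_le_nhds.1 hcomp.isCompact_univ U (by simp)
  have h3 : p ∈ range (ptN e E) := by
    refine h2.mem_of_frequently_of_tendsto (f := ptN e E) (b := (hyperfilter ℕ : Filter ℕ)) ?_ hp
    exact Filter.Frequently.of_forall fun n => ⟨n, rfl⟩
  obtain ⟨l, rfl⟩ := h3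
  have h4 : {ptN e E l} ∈ U := hp ((isOpen_ptN l).mem_nhds rfl)
  have h5 : ptN e E ⁻¹' {ptN e E l} ∈ (hyperfilter ℕ : Filter ℕ) := h4
  have h6 : (ptN e E ⁻¹' {ptN e E l}).Finite := by
    refine (Set.finite_singleton l).subset ?_
    intro k hk
    exact Sum.inl_injective hk
  exact (notMem_hyperfilter_of_finite h6) h5

/-- **The negation of the positive answer**, from the combinatorial hypotheses. -/
theorem not_positive (hj : ∃ j : Ω → ℕ → Bool, Function.Injective j) (hyp : ∀ b, Hyp e E b)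
    (hns : ∀ b, NoSeq e E b) :
    ¬ ∀ (X : Type) [TopologicalSpace X] [CompactSpace X] [T2Space X],
      (∀ S : Set X, AlphaRC S) → SequentialSpace X := by
  intro h
  have hcomp : CompactSpace (Sp e E) := compactSpace he hE
  exact not_sequential he hE hns (h (Sp e E) (alphaRC he hE hj hyp))

end

end Pool.Agent.Helper81.HA
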