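import Pool.Agent.Helper81.HA.Comb

/-!
# A compact space from a tree of partitions: the space
-/

set_option autoImplicit false

namespace Pool.Agent.Helper81.HA

open Set Filter Topology

variable {Ω : Type} [LinearOrder Ω] [WellFoundedLT Ω]

/-- The points of the space: the natural numbers and the branches. -/
def Sp (_e : Ω → ℕ → Ω) (_E : Ω → (Ω → Bool) → ℕ → Bool × ℕ) : Type := ℕ ⊕ (Ω → Bool)

section

variable (e : Ω → ℕ → Ω) (E : Ω → (Ω → Bool) → ℕ → Bool × ℕ)

/-- The point given by a natural number. -/
def ptN (l : ℕ) : Sp e E := Sum.inl l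

/-- The point given by a branch. -/
def ptB (b : Ω → Bool) : Sp e E := Sum.inr b

open Classical in
/-- The side of the point `x` at the node `s | d`. -/
noncomputable def side (x : Sp e E) (d : Ω) (s : Ω → Bool) : Bool :=
  match x with
  | Sum.inl l => sdN e E s d l
  | Sum.inr b =>
    if h : {γ | γ < d ∧ b γ ≠ s γ}.Nonempty then
      sd e E s d ((wellFounded_lt (α := Ω)).min {γ | γ < d ∧ b γ ≠ s γ} h)
    else b d

open Classical in
/-- The coordinates. -/
noncomputable def co (x : Sp e E) : ℕ ⊕ (Ω × (Ω → Bool)) → Bool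
  | Sum.inl l => decide (x = ptN e E l)
  | Sum.inr z => side e E x z.1 z.2

noncomputable instance : TopologicalSpace (Sp e E) := TopologicalSpace.induced (co e E) inferInstance

theorem side_ptN (l : ℕ) (d : Ω) (s : Ω → Bool) : side e E (ptN e E l) d s = sdN e E s d l := rfl

open Classical in
theorem side_agree {b : Ω → Bool} {d : Ω} {s : Ω → Bool} (h : ∀ γ, γ < d → b γ = s γ) :
    side e E (ptB e E b) d s = b d := by
  have h1 : ¬ {γ | γ < d ∧ b γ ≠ s γ}.Nonempty := by
    rintro ⟨γ, h1, h2⟩
    exact h2 (h γ h1)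
  show (if h : {γ | γ < d ∧ b γ ≠ s γ}.Nonempty then _ else b d) = b d
  rw [dif_neg h1]

open Classical in
theorem side_split {b : Ω → Bool} {d : Ω} {s : Ω → Bool} {γ : Ω} (hγ : γ < d) (h : b γ ≠ s γ)
    (h' : ∀ δ, δ < γ → b δ = s δ) : side e E (ptB e E b) d s = sd e E s d γ := by
  have h1 : {γ | γ < d ∧ b γ ≠ s γ}.Nonempty := ⟨γ, hγ, h⟩
  show (if h : {γ | γ < d ∧ b γ ≠ s γ}.Nonempty then
      sd e E s d ((wellFounded_lt (α := Ω)).min {γ | γ < d ∧ b γ ≠ s γ} h) else b d) = _
  rw [dif_pos h1]
  congr 1
  have h2 := (wellFounded_lt (α := Ω)).min_mem _ h1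
  have h3 : ¬ γ < (wellFounded_lt (α := Ω)).min {γ | γ < d ∧ b γ ≠ s γ} h1 :=
    (wellFounded_lt (α := Ω)).not_lt_min {γ | γ < d ∧ b γ ≠ s γ} (show γ < d ∧ b γ ≠ s γ from
      ⟨hγ, h⟩)
  refine le_antisymm (not_lt.1 h3) ?_
  by_contra h4
  push Not at h4
  exact h2.2 (h' _ h4)

theorem exists_split {b s : Ω → Bool} (h : b ≠ s) : ∃ γ, b γ ≠ s γ ∧ ∀ δ, δ < γ → b δ = s δ := by
  have h1 : {γ | b γ ≠ s γ}.Nonempty := by
    by_contra h2
    rw [not_nonempty_iff_eq_empty] at h2
    apply h
    funext γ
    by_contra h3
    have : γ ∈ {γ | b γ ≠ s γ} := h3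
    rw [h2] at this
    exact this
  refine ⟨(wellFounded_lt (α := Ω)).min _ h1, (wellFounded_lt (α := Ω)).min_mem _ h1, ?_⟩
  intro δ hδ
  by_contra h3
  exact (wellFounded_lt (α := Ω)).not_lt_min {γ | b γ ≠ s γ} h3 hδ

variable {e E}

theorem continuous_co : Continuous (co e E) := continuous_induced_dom

theorem isOpen_co (c : ℕ ⊕ (Ω × (Ω → Bool))) (u : Bool) : IsOpen {x : Sp e E | co e E x c = u} := by
  have h1 : Continuous fun x : Sp e E => co e E x c := (continuous_apply c).comp continuous_co
  exact (isOpen_discrete {u}).preimage h1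

theorem isOpen_side (d : Ω) (s : Ω → Bool) (u : Bool) :
    IsOpen {x : Sp e E | side e E x d s = u} := isOpen_co (Sum.inr (d, s)) u

theorem isOpen_ptN (l : ℕ) : IsOpen {ptN e E l} := by
  have h1 := isOpen_co (e := e) (E := E) (Sum.inl l) true
  have h2 : {x : Sp e E | co e E x (Sum.inl l) = true} = {ptN e E l} := by
    ext x
    simp [co]
  rwa [h2] at h1

theorem isOpen_ne_ptN (l : ℕ) : IsOpen {x | x ≠ ptN e E l} := by
  have h1 := isOpen_co (e := e) (E := E) (Sum.inl l) false
  have h2 : {x : Sp e E | co e E x (Sum.inl l) = false} = {x | x ≠ ptN e E l} := by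
    ext x
    simp [co]
  rwa [h2] at h1

theorem co_injective : Function.Injective (co e E) := by
  classical
  rintro x y h
  rcases x with l | b
  · have h1 := congrFun h (Sum.inl l)
    have h2 : co e E (ptN e E l) (Sum.inl l) = true := by simp [co]
    rw [show (Sum.inl l : Sp e E) = ptN e E l from rfl, h2] at h1
    have h3 : y = ptN e E l := by simpa [co] using h1.symm
    rw [h3]; rfl
  · rcases y with l | b'
    · have h1 := congrFun h (Sum.inl l)
      have h2 : co e E (ptN e E l) (Sum.inl l) = true := by simp [co]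
      rw [show (Sum.inl l : Sp e E) = ptN e E l from rfl, h2] at h1
      have h3 : (Sum.inr b : Sp e E) = ptN e E l := by
        by_contra h4
        have h5 : co e E (Sum.inr b : Sp e E) (Sum.inl l) = false := by
          simp only [co, decide_eq_false_iff_not]
          exact h4
        rw [h5] at h1
        exact Bool.false_ne_true h1
      exact h3
    · by_contra hne
      have hne' : b' ≠ b := fun h1 => hne (by rw [h1])
      obtain ⟨γ, h1, h2⟩ := exists_split hne'
      have h3 := congrFun h (Sum.inr (γ, b))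
      have h4 : co e E (ptB e E b) (Sum.inr (γ, b)) = b γ := side_agree e E fun _ _ => rfl
      have h5 : co e E (ptB e E b') (Sum.inr (γ, b)) = b' γ := side_agree e E h2
      exact h1 (by rw [← h4, ← h5]; exact h3.symm)

instance : T2Space (Sp e E) := T2Space.of_injective_continuous co_injective continuous_co

/-- Convergence of ultrafilters. -/
theorem le_nhds_of {F : Ultrafilter (Sp e E)} {x : Sp e E}
    (h : ∀ c, ∀ᶠ y in (F : Filter (Sp e E)), co e E y c = co e E x c) :
    (F : Filter (Sp e E)) ≤ 𝓝 x := by
  rw [nhds_induced, ← Filter.map_le_iff_le_comap]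
  show Tendsto (co e E) F (𝓝 (co e E x))
  rw [tendsto_pi_nhds]
  intro c
  refine tendsto_nhds_of_eventually_eq ?_
  exact h c

variable (he : ∀ d γ, γ < d → ∃ m, e d m = γ) (hE : Coh E)
include he hE

/-- A point on the side of `x_b` at all smaller nodes of `b` is on the side of `b` at `s | d`,
up to finitely many nodes and natural numbers. -/
theorem side_key {b s : Ω → Bool} {d α : Ω} (hα : α < d) (h1 : b α ≠ s α)
    (h2 : ∀ γ, γ < α → b γ = s γ) :
    ∃ (F : Finset Ω) (K : Finset ℕ), ∀ x : Sp e E, side e E x α b = b α →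
      (∀ β ∈ F, side e E x β b = b β) → (∀ l ∈ K, x ≠ ptN e E l) →
        side e E x d s = sd e E s d α := by
  classical
  obtain ⟨F, K, hF, h3, h4⟩ := node (E := E) he s d α hα
  have hbs : b α = !s α := by
    cases hb : b α <;> cases hs : s α <;> simp_all
  have hsd : ∀ β, β ≤ α → ∀ g, sd e E b β g = sd e E s β g := fun β hβ g =>
    sd_congr hE (fun γ hγ => h2 γ (lt_of_lt_of_le hγ hβ)) g
  have hsdN : ∀ β, β ≤ α → ∀ l, sdN e E b β l = sdN e E s β l := fun β hβ l =>
    sdN_congr hE (fun γ hγ => h2 γ (lt_of_lt_of_le hγ hβ)) l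
  refine ⟨F, K ∪ Finset.range (E d s (idx e E s d α)).2, ?_⟩
  intro x hxα hxF hxK
  rcases x with l | c
  · -- a natural number
    change sdN e E b α l = b α at hxα
    have h5 : l ∈ W e E s α := by
      rw [mem_W, ← hsdN α le_rfl, hxα]
      exact h1
    have h6 : ¬ ∃ β ∈ F, l ∈ W e E s β := by
      rintro ⟨β, hβ, h7⟩
      rw [mem_W, ← hsdN β (hF β hβ).le] at h7
      have h8 : sdN e E b β l = b β := hxF β hβ
      rw [h8, h2 β (hF β hβ)] at h7
      exact h7 rfl
    have h7 : l ∉ K := fun h => hxK l (Finset.mem_union_left _ h) rfl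
    have h8 := ((h4 l h5).resolve_left h6).resolve_left h7
    have h9 : ¬ l < (E d s (idx e E s d α)).2 := fun h =>
      hxK l (Finset.mem_union_right _ (Finset.mem_range.2 h)) rfl
    show sdN e E s d l = sd e E s d α
    unfold sdN sd
    rw [h8, decide_eq_false h9, Bool.xor_false]
  · -- a branch
    have hxc : (Sum.inr c : Sp e E) = ptB e E c := rfl
    rw [hxc] at hxα hxF ⊢
    by_cases h5 : ∀ γ, γ < α → c γ = b γ
    · rw [side_agree e E h5] at hxα
      have h6 : c α ≠ s α := by rw [hxα]; exact h1
      exact side_split e E hα h6 fun δ hδ => (h5 δ hδ).trans (h2 δ hδ)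
    · have hne : c ≠ b := by
        rintro rfl
        exact h5 fun _ _ => rfl
      obtain ⟨γ, h6, h7⟩ := exists_split hne
      have hγ : γ < α := by
        by_contra h8
        push Not at h8
        exact h5 fun δ hδ => h7 δ (lt_of_lt_of_le hδ h8)
      rw [side_split e E hγ h6 h7] at hxα
      have h8 : γ ∈ V e E s α := by
        rw [mem_V_of_lt hγ, ← hsd α le_rfl, hxα]
        exact h1
      have h9 : ¬ ∃ β ∈ F, γ ∈ V e E s β := by
        rintro ⟨β, hβ, h10⟩
        have hβα := hF β hβ
        rcases lt_or_eq_of_le (le_of_mem_V h10) with h11 | h11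
        · rw [mem_V_of_lt h11, ← hsd β hβα.le] at h10
          have h12 := hxF β hβ
          rw [side_split e E h11 h6 h7] at h12
          rw [h12, h2 β hβα] at h10
          exact h10 rfl
        · subst h11
          have h12 := hxF γ hβ
          rw [side_agree e E h7] at h12
          exact h6 h12
      have h10 := (h3 γ h8).resolve_left h9
      have h11 : side e E (ptB e E c) d s = sd e E s d γ :=
        side_split e E (hγ.trans hα) (by rw [← h2 γ hγ]; exact h6)
          fun δ hδ => (h7 δ hδ).trans (h2 δ (hδ.trans hγ))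
      rw [h11]
      unfold sd
      rw [h10]

theorem compactSpace : CompactSpace (Sp e E) := by
  classical
  refine ⟨isCompact_iff_ultrafilter_le_nhds.2 ?_⟩
  intro F _
  by_cases hF : ∃ l, {ptN e E l} ∈ F
  · obtain ⟨l, hl⟩ := hF
    refine ⟨ptN e E l, mem_univ _, ?_⟩
    refine le_nhds_of fun c => ?_
    filter_upwards [hl] with y hy
    rw [hy]
  · push Not at hF
    -- the branch given by the ultrafilter
    let st : (d : Ω) → ((γ : Ω) → γ < d → Bool) → Bool := fun d IH =>
      decide (∀ᶠ x in (F : Filter (Sp e E)), side e E x d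
        (fun γ => if h : γ < d then IH γ h else false) = true)
    let b : Ω → Bool := (wellFounded_lt (α := Ω)).fix st
    have side_congr : ∀ (x : Sp e E) (d : Ω) (s s' : Ω → Bool), (∀ γ, γ < d → s γ = s' γ) →
        side e E x d s = side e E x d s' := by
      intro x d s s' h
      rcases x with l | c
      · exact sdN_congr hE h l
      · have hxc : (Sum.inr c : Sp e E) = ptB e E c := rfl
        rw [hxc]
        by_cases h5 : ∀ γ, γ < d → c γ = s γ
        · rw [side_agree e E h5, side_agree e E fun γ hγ => (h5 γ hγ).trans (h γ hγ)]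
        · have hne : c ≠ s := by
            rintro rfl
            exact h5 fun _ _ => rfl
          obtain ⟨γ, h6, h7⟩ := exists_split hne
          have hγ : γ < d := by
            by_contra h8
            push Not at h8
            exact h5 fun δ hδ => h7 δ (lt_of_lt_of_le hδ h8)
          rw [side_split e E hγ h6 h7,
            side_split e E hγ (by rw [← h γ hγ]; exact h6)
              fun δ hδ => (h7 δ hδ).trans (h δ (hδ.trans hγ)), sd_congr hE h]
    have hb : ∀ d, b d = decide (∀ᶠ x in (F : Filter (Sp e E)), side e E x d b = true) := by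
      intro d
      have h1 : b d = st d fun γ _ => b γ := (wellFounded_lt (α := Ω)).fix_eq st d
      rw [h1]
      show decide (∀ᶠ x in (F : Filter (Sp e E)), side e E x d
        (fun γ => if h : γ < d then b γ else false) = true) = _
      congr 1
      refine propext (Filter.eventually_congr (Filter.Eventually.of_forall fun x => ?_))
      rw [side_congr x d (fun γ => if h : γ < d then b γ else false) b fun γ hγ => by
        show (if h : γ < d then b γ else false) = b γ
        rw [dif_pos hγ]]
    have hb' : ∀ d, ∀ᶠ x in (F : Filter (Sp e E)), side e E x d b = b d := by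
      intro d
      by_cases h : ∀ᶠ x in (F : Filter (Sp e E)), side e E x d b = true
      · have h1 : b d = true := by rw [hb d, decide_eq_true h]
        rw [h1]; exact h
      · have h1 : b d = false := by rw [hb d, decide_eq_false h]
        rw [h1]
        have h2 : ∀ᶠ x in (F : Filter (Sp e E)), ¬ side e E x d b = true :=
          Ultrafilter.eventually_not.2 h
        filter_upwards [h2] with x hx
        exact Bool.eq_false_iff.2 hx
    refine ⟨ptB e E b, mem_univ _, le_nhds_of ?_⟩
    rintro (l | ⟨d, s⟩)
    · have h1 : ∀ᶠ x in (F : Filter (Sp e E)), ¬ x = ptN e E l := by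
        have h2 : {ptN e E l}ᶜ ∈ F := Ultrafilter.compl_mem_iff_notMem.2 (hF l)
        exact h2
      filter_upwards [h1] with x hx
      have h2 : ptB e E b ≠ ptN e E l := fun h => by cases h
      simp [co, hx, h2]
    · show ∀ᶠ x in (F : Filter (Sp e E)), side e E x d s = side e E (ptB e E b) d s
      by_cases h5 : ∀ γ, γ < d → b γ = s γ
      · rw [side_agree e E h5]
        filter_upwards [hb' d] with x hx
        rw [← hx]
        exact (side_congr x d b s h5).symm
      · have hne : b ≠ s := by
          rintro rfl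
          exact h5 fun _ _ => rfl
        obtain ⟨α, h6, h7⟩ := exists_split hne
        have hα : α < d := by
          by_contra h8
          push Not at h8
          exact h5 fun δ hδ => h7 δ (lt_of_lt_of_le hδ h8)
        rw [side_split e E hα h6 h7]
        obtain ⟨G, K, h8⟩ := side_key he hE hα h6 h7
        have h9 : ∀ᶠ x in (F : Filter (Sp e E)), ∀ β ∈ G, side e E x β b = b β :=
          (Filter.eventually_all_finset G).2 fun β _ => hb' β
        have h10 : ∀ᶠ x in (F : Filter (Sp e E)), ∀ l ∈ K, x ≠ ptN e E l :=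
          (Filter.eventually_all_finset K).2 fun l _ =>
            (Ultrafilter.compl_mem_iff_notMem.2 (hF l) : {ptN e E l}ᶜ ∈ F)
        filter_upwards [hb' α, h9, h10] with x h11 h12 h13
        exact h8 x h11 h12 h13

end

end Pool.Agent.Helper81.HA
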